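import Pool.Agent.Helper15.KS.CNT
import Pool.Agent.Helper20.KS.Near
import Pool.Agent.Helper31.KS.GEO
import Pool.Agent.Helper43.KS.LIM
import Pool.Agent.Helper93.KS.COV

/-!
# The covering problem for primes near `N ^ α` implies the Kakeya conjecture (Minkowski dimension)

If every choice of one class per prime in `[N ^ α, 2 N ^ α)` covers at least `N ^ (θ - o(1))` integers of
`[1, N]`, for exponents `α` arbitrarily close to `1`, then every bounded set in `ℝ ^ n`, `n ≥ 2`, which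
contains a unit segment in every direction has lower Minkowski dimension at least `θ (n - 1) + 1`.  In
particular Q1 implies the Kakeya conjecture for the Minkowski dimension in every dimension.
-/

set_option autoImplicit false

open Finset Filter Topology
open scoped Classical

namespace Pool.Agent.Results.MP_bb5cc8_nt.KakeyaSetsFromPrimes

/-- The integers `1 ≤ n ≤ N` with `n ≡ a p (mod p)` for some `p ∈ M`. -/
def cov (M : Set ℕ) (N : ℕ) (a : (m : ℕ) → ZMod m) : Set ℕ :=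
  {n : ℕ | 1 ≤ n ∧ n ≤ N ∧ ∃ m ∈ M, (n : ZMod m) = a m}

/-- The primes `N ^ α ≤ p < 2 N ^ α`. -/
def primesNear (α : ℝ) (N : ℕ) : Set ℕ :=
  {p : ℕ | p.Prime ∧ (N : ℝ) ^ α ≤ (p : ℝ) ∧ (p : ℝ) < 2 * (N : ℝ) ^ α}

/-- For every `ε > 0`, all large `N` and every choice of one class `a p` for each prime
`p ∈ primesNear α N` at least `N ^ (c - ε)` integers of `{1, …, N}` are covered. -/
def LowerBound (α c : ℝ) : Prop :=
  ∀ ε : ℝ, 0 < ε → ∃ N₀ : ℕ, ∀ N : ℕ, N₀ ≤ N → ∀ a : (m : ℕ) → ZMod m,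
    (N : ℝ) ^ (c - ε) ≤ ((cov (primesNear α N) N a).ncard : ℝ)

/-- Q1 of the problem. -/
def Q1 : Prop := ∀ α : ℝ, 1 / 2 < α → α < 1 → LowerBound α 1

/-- Lower bounds `N ^ (θ - o(1))` for exponents `α` arbitrarily close to `1`. -/
def NearOne (θ : ℝ) : Prop :=
  ∀ c : ℝ, c < θ → ∀ α₀ : ℝ, α₀ < 1 → ∃ α : ℝ, α₀ < α ∧ α < 1 ∧ LowerBound α c

/-- `K` contains a unit segment in every direction. -/
def IsKakeya {n : ℕ} (K : Set (EuclideanSpace ℝ (Fin n))) : Prop :=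
  ∀ e : EuclideanSpace ℝ (Fin n), ‖e‖ = 1 → ∃ a, ∀ t ∈ Set.Icc (0 : ℝ) 1, a + t • e ∈ K

/-- The least number of sets of diameter at most `δ` covering `B` (for bounded `B`). -/
noncomputable def coverNum {n : ℕ} (B : Set (EuclideanSpace ℝ (Fin n))) (δ : ℝ) : ℕ :=
  sInf {N | ∃ U : Fin N → Set (EuclideanSpace ℝ (Fin n)),
    (∀ i, ∀ x ∈ U i, ∀ y ∈ U i, dist x y ≤ δ) ∧ B ⊆ ⋃ i, U i}

/-- Lower Minkowski dimension. -/
noncomputable def lowerMinkowski {n : ℕ} (B : Set (EuclideanSpace ℝ (Fin n))) : EReal :=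
  liminf (fun δ : ℝ => ((Real.log (coverNum B δ) / Real.log (1 / δ) : ℝ) : EReal)) (𝓝[>] 0)

theorem result :
    -- 1. lower bounds for the primes give lower bounds for Kakeya sets
    (∀ θ : ℝ, 0 < θ → θ ≤ 1 → NearOne θ → ∀ n : ℕ, 2 ≤ n →
      ∀ K : Set (EuclideanSpace ℝ (Fin n)), Bornology.IsBounded K → IsKakeya K →
        ((θ * ((n : ℝ) - 1) + 1 : ℝ) : EReal) ≤ lowerMinkowski K) ∧
    -- 2. Q1 implies the Kakeya conjecture for the Minkowski dimension
    (Q1 → ∀ n : ℕ, 2 ≤ n → ∀ K : Set (EuclideanSpace ℝ (Fin n)), Bornology.IsBounded K →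
      IsKakeya K → ((n : ℝ) : EReal) ≤ lowerMinkowski K) := by
  have main : ∀ θ : ℝ, 0 < θ → θ ≤ 1 → NearOne θ → ∀ n : ℕ, 2 ≤ n →
      ∀ K : Set (EuclideanSpace ℝ (Fin n)), Bornology.IsBounded K → IsKakeya K →
        ((θ * ((n : ℝ) - 1) + 1 : ℝ) : EReal) ≤ lowerMinkowski K := by
    intro θ hθ hθ1 h n hn K hb hk
    obtain ⟨m, rfl⟩ : ∃ m, n = m + 1 := ⟨n - 1, by omega⟩
    have key := Pool.Agent.Helper20.KS.main Pool.Agent.Helper31.KS.geo Pool.Agent.Helper93.KS.cov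
      Pool.Agent.Helper15.KS.cnt Pool.Agent.Helper43.KS.lim hθ hθ1
      (Pool.Agent.Helper20.KS.kakeya_of_primes hθ1 h) m (by omega) K hb hk
    have e : θ * (((m + 1 : ℕ) : ℝ) - 1) + 1 = θ * (m : ℝ) + 1 := by
      push_cast
      ring
    rw [e]
    exact key
  refine ⟨main, fun h n hn K hb hk => ?_⟩
  have key := main 1 one_pos le_rfl (Pool.Agent.Helper20.KS.near_of_Q1 h) n hn K hb hk
  have e : (1 : ℝ) * ((n : ℝ) - 1) + 1 = n := by ring
  rw [e] at key
  exact key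

end Pool.Agent.Results.MP_bb5cc8_nt.KakeyaSetsFromPrimes
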