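import Pool.Agent.Helper81.PK.Mono

/-!
# Covering integers by one residue class per prime near `N^α`: the deficiency is monotone

`nearP P α N` is the set of the integers with the property `P` in `[N^α, 2 N^α)` (the primes for
`P = Nat.Prime`), `cov M N a` is the set of the integers `1 ≤ n ≤ N` with `n ≡ a m (mod m)` for some `m ∈ M`,
`Lower 𝓜 c` says that for every `ε > 0`, all large `N` and all choices `a` one has
`#cov (𝓜 N) N a ≥ N^(c - ε)`.
-/

namespace Pool.Agent.Results.MP_bb5cc8_nt.MonotoneDeficiency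

open Pool.Agent.Helper81.PK

lemma lower_of_le {𝓜 : ℕ → Set ℕ} {c c' : ℝ} (h : c ≤ c') (h' : Lower 𝓜 c') : Lower 𝓜 c := by
  intro ε hε
  obtain ⟨N₀, hN₀⟩ := h' ε hε
  refine ⟨N₀ + 1, fun N hN a => le_trans ?_ (hN₀ N (by omega) a)⟩
  exact Real.rpow_le_rpow_of_exponent_le (by exact_mod_cast (by omega : 1 ≤ N)) (by linarith)

/-- **Theorem.** (1) Let `P` be any property of integers (for example to be a prime), `0 < α < β < 1` and
`0 ≤ s < 1`. If `N^(1 - β s - o(1))` is a uniform lower bound for the number of the covered integers for the moduli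
with the property `P` in `[N^β, 2 N^β)`, then `N^(1 - α s - o(1))` is one for the moduli with the property `P` in
`[N^α, 2 N^α)`.
(2) There is a threshold `τ ∈ [0, 1]` such that the bound `N^(1 - o(1))` of the problem holds for every exponent
`0 < α < τ` and fails for every exponent `τ < α < 1`; Q1 says that `τ = 1`. -/
theorem result :
    (∀ (P : ℕ → Prop) (α β s : ℝ), 0 < α → α < β → β < 1 → 0 ≤ s → s < 1 →
      Lower (nearP P β) (1 - β * s) → Lower (nearP P α) (1 - α * s)) ∧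
    ∃ τ : ℝ, 0 ≤ τ ∧ τ ≤ 1 ∧ (∀ α : ℝ, 0 < α → α < τ → Lower (nearP Nat.Prime α) 1) ∧
      (∀ α : ℝ, τ < α → α < 1 → ¬ Lower (nearP Nat.Prime α) 1) ∧
      ((∀ α : ℝ, 1 / 2 < α → α < 1 → Lower (nearP Nat.Prime α) 1) ↔ τ = 1) := by
  have mono : ∀ α β : ℝ, 0 < α → α < β → β < 1 → Lower (nearP Nat.Prime β) 1 →
      Lower (nearP Nat.Prime α) 1 := by
    intro α β h0 h1 h2 h
    have h3 := lower_mono Nat.Prime h0 h1 h2 le_rfl one_pos (s := 0) (by simpa using h)
    simpa using h3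
  refine ⟨fun P α β s h0 h1 h2 h3 h4 h5 => lower_mono P h0 h1 h2 h3 h4 h5, ?_⟩
  set A : Set ℝ := {α : ℝ | 0 ≤ α ∧ α < 1 ∧ ∀ α' : ℝ, 0 < α' → α' ≤ α → Lower (nearP Nat.Prime α') 1} with hA
  have h0A : (0 : ℝ) ∈ A := ⟨le_rfl, one_pos, fun α' h1 h2 => absurd h1 (not_lt.2 h2)⟩
  have hbdd : BddAbove A := ⟨1, fun α hα => hα.2.1.le⟩
  have hτ0 : 0 ≤ sSup A := le_csSup hbdd h0A
  have hτ1 : sSup A ≤ 1 := csSup_le ⟨0, h0A⟩ fun α hα => hα.2.1.le
  have hgood : ∀ α : ℝ, 0 < α → α < sSup A → Lower (nearP Nat.Prime α) 1 := by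
    intro α h0 h1
    obtain ⟨β, hβ, hαβ⟩ := exists_lt_of_lt_csSup ⟨0, h0A⟩ h1
    exact hβ.2.2 α h0 hαβ.le
  have hbad : ∀ α : ℝ, sSup A < α → α < 1 → ¬ Lower (nearP Nat.Prime α) 1 := by
    intro α h1 h2 h
    have hα0 : 0 < α := lt_of_le_of_lt hτ0 h1
    have h3 : α ∈ A := by
      refine ⟨hα0.le, h2, fun α' h4 h5 => ?_⟩
      rcases h5.lt_or_eq with h5 | h5
      · exact mono α' α h4 h5 h2 h
      · rw [h5]; exact h
    exact absurd (le_csSup hbdd h3) (not_le.2 h1)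
  refine ⟨sSup A, hτ0, hτ1, hgood, hbad, ?_, ?_⟩
  · intro hQ
    by_contra hne
    have h1 : sSup A < 1 := lt_of_le_of_ne hτ1 hne
    have h2 : max (1 / 2) (sSup A) < 1 := max_lt (by norm_num) h1
    have h3 := le_max_left (1 / 2) (sSup A)
    have h4 := le_max_right (1 / 2) (sSup A)
    exact hbad ((max (1 / 2) (sSup A) + 1) / 2) (by linarith) (by linarith)
      (hQ _ (by linarith) (by linarith))
  · intro h α h1 h2
    exact hgood α (by linarith) (by rw [h]; exact h2)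

end Pool.Agent.Results.MP_bb5cc8_nt.MonotoneDeficiency
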