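import Pool.Agent.Helper81.PK.Down2
import Pool.Agent.Helper81.PK.Up
import Pool.Graph.R_seed8.H170R2.PC.Primes

/-!
# Covering integers by one residue class per prime near `N^α`: Q1 is the arithmetic Kakeya statement with
`|D|^η` slices

`cov M N a` is the set of the integers `1 ≤ n ≤ N` with `n ≡ a m (mod m)` for some `m ∈ M`; `near α N` is the
set of all integers and `primesNear α N` the set of all primes in `[N^α, 2 N^α)`; `Lower 𝓜 c` says that for
every `ε > 0`, all large `N` and all choices `a` one has `#cov (𝓜 N) N a ≥ N^(c - ε)`.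
`Kakeya θ`: for all `ε, η > 0`, every sufficiently large finite set `D ⊂ ℤ` and every function `x : ℤ → ℤ` there is
`0 ≤ j ≤ |D|^η` such that the set `{x d + j d : d ∈ D}` has at least `|D|^(θ - ε)` elements.
-/

open Finset Filter Topology

namespace Pool.Agent.Results.MP_bb5cc8_nt.PolynomialKakeya

open Pool.Agent.Helper81.PK

/-- Q1 of the problem. -/
def Q1 : Prop := ∀ α : ℝ, 1 / 2 < α → α < 1 → Lower (primesNear α) 1

/-- lower bounds near `α = 1` for the moduli `𝓜 α N`. -/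
def NearOne (𝓜 : ℝ → ℕ → Set ℕ) (θ : ℝ) : Prop :=
  ∀ c : ℝ, c < θ → ∀ α₀ : ℝ, α₀ < 1 → ∃ α : ℝ, α₀ < α ∧ α < 1 ∧ Lower (𝓜 α) c

/-- the bound for all nonempty sets `M` of integer moduli in `[N^α, 2 N^α)`, for all `0 < α < 1`. -/
def AllModuli (θ : ℝ) : Prop :=
  ∀ α : ℝ, 0 < α → α < 1 → ∀ ε : ℝ, 0 < ε → ∃ N₀ : ℕ, ∀ N : ℕ, N₀ ≤ N → ∀ M : Finset ℕ, M.Nonempty →
    (∀ m ∈ M, m ∈ near α N) → ∀ a : (m : ℕ) → ZMod m,
    (M.card : ℝ) ^ θ * (N : ℝ) ^ (1 - α - ε) ≤ ((cov (M : Set ℕ) N a).ncard : ℝ)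

lemma lower_of_le {𝓜 : ℕ → Set ℕ} {c c' : ℝ} (h : c ≤ c') (h' : Lower 𝓜 c') : Lower 𝓜 c := by
  intro ε hε
  obtain ⟨N₀, hN₀⟩ := h' ε hε
  refine ⟨N₀ + 1, fun N hN a => le_trans ?_ (hN₀ N (by omega) a)⟩
  exact Real.rpow_le_rpow_of_exponent_le (by exact_mod_cast (by omega : 1 ≤ N)) (by linarith)

lemma lower_near {α c : ℝ} (h : Lower (primesNear α) c) : Lower (near α) c := by
  intro ε hε
  obtain ⟨N₀, hN₀⟩ := h ε hε
  refine ⟨N₀, fun N hN a => (hN₀ N hN a).trans ?_⟩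
  have h1 : primesNear α N ⊆ near α N := fun p hp => hp.2
  exact_mod_cast cov_mono h1 N a

lemma primesNear_finite (α : ℝ) (N : ℕ) : (primesNear α N).Finite :=
  (Set.finite_Iio ⌈2 * (N : ℝ) ^ α⌉₊).subset fun _ hp => Nat.lt_ceil.2 hp.2.2

lemma primes_of_all {θ : ℝ} (hθ : 0 ≤ θ) (hθ1 : θ ≤ 1) (h : AllModuli θ) (α : ℝ) (h0 : 0 < α) (h1 : α < 1) :
    Lower (primesNear α) (1 - α * (1 - θ)) := by
  classical
  intro ε hε
  obtain ⟨δ, hδ0, hδ1, hδε⟩ : ∃ δ : ℝ, 0 < δ ∧ δ ≤ 1 ∧ δ ≤ ε / 2 :=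
    ⟨min 1 (ε / 2), lt_min one_pos (by positivity), min_le_left _ _, min_le_right _ _⟩
  obtain ⟨N₁, hN₁⟩ := h α h0 h1 (ε / 2) (by positivity)
  have ev := Pool.Agent.H170R2.PC.dyadic_primes hδ0 hδ1
  have ev2 : ∀ᶠ N : ℕ in atTop, ∀ D : Finset ℕ, (∀ p : ℕ, p.Prime → (N : ℝ) ^ α ≤ p →
      (p : ℝ) < 2 * (N : ℝ) ^ α → p ∈ D) → ((N : ℝ) ^ α) ^ (1 - δ) ≤ (D.card : ℝ) :=
    (((tendsto_rpow_atTop h0).comp tendsto_natCast_atTop_atTop).eventually ev)
  obtain ⟨N₂, hN₂⟩ := eventually_atTop.1 ev2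
  refine ⟨N₁ + N₂ + 1, fun N hN a => ?_⟩
  have hN1 : (1 : ℝ) ≤ N := by exact_mod_cast (by omega : 1 ≤ N)
  have hN0 : (0 : ℝ) < N := by linarith
  obtain ⟨M, hM⟩ : ∃ M : Finset ℕ, M = (primesNear_finite α N).toFinset := ⟨_, rfl⟩
  have hcard := hN₂ N (by omega) M (by
    intro p hp h2 h3
    rw [hM, Set.Finite.mem_toFinset]
    exact ⟨hp, h2, h3⟩)
  have hpos : (0 : ℝ) < M.card := lt_of_lt_of_le (by positivity) hcard
  have hne : M.Nonempty := card_pos.1 (by exact_mod_cast hpos)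
  have h4 := hN₁ N (by omega) M hne (by
    intro m hm
    rw [hM, Set.Finite.mem_toFinset] at hm
    exact hm.2) a
  rw [hM, Set.Finite.coe_toFinset, ← hM] at h4
  refine le_trans ?_ h4
  calc (N : ℝ) ^ (1 - α * (1 - θ) - ε) ≤ (N : ℝ) ^ (α * (1 - δ) * θ + (1 - α - ε / 2)) := by
        apply Real.rpow_le_rpow_of_exponent_le hN1
        have e1 : α * δ * θ ≤ 1 * (ε / 2) * 1 := by
          apply mul_le_mul _ hθ1 hθ (by positivity)
          exact mul_le_mul h1.le hδε hδ0.le zero_le_one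
        nlinarith
    _ = ((N : ℝ) ^ (α * (1 - δ))) ^ θ * (N : ℝ) ^ (1 - α - ε / 2) := by
        rw [Real.rpow_add hN0, Real.rpow_mul hN0.le (α * (1 - δ)) θ]
    _ = (((N : ℝ) ^ α) ^ (1 - δ)) ^ θ * (N : ℝ) ^ (1 - α - ε / 2) := by
        rw [Real.rpow_mul hN0.le α (1 - δ)]
    _ ≤ (M.card : ℝ) ^ θ * (N : ℝ) ^ (1 - α - ε / 2) := by
        apply mul_le_mul_of_nonneg_right _ (by positivity)
        exact Real.rpow_le_rpow (by positivity) hcard hθ

/-- **Theorem.** (1) For every `0 ≤ θ ≤ 1` the following are equivalent: the lower bounds `N^(θ - o(1))` for the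
primes in `[N^α, 2 N^α)` for exponents `α` arbitrarily close to `1`; the same for all integers in `[N^α, 2 N^α)`;
`Kakeya θ`; the bound `|M|^θ N^(1 - α - ε)` for all sets `M` of integers in `[N^α, 2 N^α)` and all `0 < α < 1`;
the lower bounds `N^(1 - α (1 - θ) - o(1))` for the primes and all `0 < α < 1`.
(2) Q1 holds if and only if `Kakeya 1` holds, if and only if for all `0 < α < 1`, `ε > 0`, all large `N`,
all nonempty sets `M` of integers in `[N^α, 2 N^α)` and all choices at least `|M| N^(1 - α - ε)` integers are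
covered. -/
theorem result :
    (∀ θ : ℝ, 0 ≤ θ → θ ≤ 1 → List.TFAE [NearOne primesNear θ, NearOne near θ, Kakeya θ, AllModuli θ,
      ∀ α : ℝ, 0 < α → α < 1 → Lower (primesNear α) (1 - α * (1 - θ))]) ∧
    (Q1 ↔ Kakeya 1) ∧ (Q1 ↔ AllModuli 1) := by
  have main : ∀ θ : ℝ, 0 ≤ θ → θ ≤ 1 → List.TFAE [NearOne primesNear θ, NearOne near θ, Kakeya θ,
      AllModuli θ, ∀ α : ℝ, 0 < α → α < 1 → Lower (primesNear α) (1 - α * (1 - θ))] := by
    intro θ hθ hθ1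
    tfae_have 1 → 2 := fun h c hc α₀ hα₀ => by
      obtain ⟨α, h1, h2, h3⟩ := h c hc α₀ hα₀
      exact ⟨α, h1, h2, lower_near h3⟩
    tfae_have 2 → 3 := fun h => kakeya_of_near θ hθ1 h
    tfae_have 3 → 4 := fun h α h0 h1 ε hε => all_of_kakeya θ hθ1 h α h0 h1 ε hε
    tfae_have 4 → 5 := fun h α h0 h1 => primes_of_all hθ hθ1 h α h0 h1
    tfae_have 5 → 1 := fun h c hc α₀ hα₀ => by
      refine ⟨(max 0 α₀ + 1) / 2, ?_, ?_, ?_⟩
      · have := le_max_right 0 α₀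
        linarith
      · have : max 0 α₀ < 1 := max_lt one_pos hα₀
        linarith
      · have h1 : max 0 α₀ < 1 := max_lt one_pos hα₀
        have h2 := le_max_left 0 α₀
        refine lower_of_le ?_ (h ((max 0 α₀ + 1) / 2) (by linarith) (by linarith))
        nlinarith
    tfae_finish
  have hQ : Q1 → Kakeya 1 := by
    intro h
    refine ((main 1 zero_le_one le_rfl).out 0 2).1 fun c hc α₀ hα₀ => ?_
    have h1 : max (1 / 2) α₀ < 1 := max_lt (by norm_num) hα₀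
    have h2 := le_max_left (1 / 2) α₀
    have h3 := le_max_right (1 / 2) α₀
    exact ⟨(max (1 / 2) α₀ + 1) / 2, by linarith, by linarith,
      lower_of_le hc.le (h _ (by linarith) (by linarith))⟩
  have hK : Kakeya 1 → Q1 := by
    intro h α h1 h2
    have h3 : Kakeya 1 ↔ (∀ α : ℝ, 0 < α → α < 1 → Lower (primesNear α) (1 - α * (1 - 1))) :=
      (main 1 zero_le_one le_rfl).out 2 4
    have h4 := h3.1 h α (by linarith) h2
    simpa using h4
  have hA : Kakeya 1 ↔ AllModuli 1 := (main 1 zero_le_one le_rfl).out 2 3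
  exact ⟨main, ⟨hQ, hK⟩, ⟨fun h => hA.1 (hQ h), fun h => hK (hA.2 h)⟩⟩

end Pool.Agent.Results.MP_bb5cc8_nt.PolynomialKakeya
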